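import Pool.Agent.Helper49.RU.St

/-!
# Project RU of helper49, module AVG: averages over disjoint sets of coordinates (Bessel)
-/

set_option autoImplicit false

namespace Pool.Agent.Helper19.RU

open Pool.Agent.Helper49.RU
open MeasureTheory Filter Topology Complex
open scoped ENNReal Cardinal ComplexConjugate

section

variable {J : Type} [Fintype J] [DecidableEq J]

/-- the kernel of the average -/
private noncomputable def ker (T : Finset J) (s t : J → Fin 3) : ℂ :=
  if (∀ j ∈ T, t j = s j) then ((3 : ℂ) ^ (Fintype.card J - T.card))⁻¹ else 0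

private lemma av_eq (T : Finset J) (v : (J → Fin 3) → ℂ) (s : J → Fin 3) :
    av T v s = ∑ t, ker T s t * v t := by
  unfold av ker
  rw [Finset.sum_div]
  refine Finset.sum_congr rfl fun t _ => ?_
  split_ifs
  · rw [div_eq_inv_mul]
  · simp

private lemma ker_conj (T : Finset J) (s t : J → Fin 3) : conj (ker T s t) = ker T s t := by
  unfold ker
  split_ifs
  · rw [map_inv₀, map_pow, show (starRingEnd ℂ) 3 = 3 from map_ofNat _ 3]
  · exact map_zero _

private lemma count (T : Finset J) (u : J → Fin 3) :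
    (Finset.univ.filter (fun s : J → Fin 3 => ∀ j ∈ T, s j = u j)).card
      = 3 ^ (Fintype.card J - T.card) := by
  have h : Finset.univ.filter (fun s : J → Fin 3 => ∀ j ∈ T, s j = u j)
      = Fintype.piFinset (fun j => if j ∈ T then {u j} else Finset.univ) := by
    ext s
    simp only [Finset.mem_filter, Finset.mem_univ, true_and, Fintype.mem_piFinset]
    constructor
    · intro h j
      split_ifs with hj
      · exact Finset.mem_singleton.2 (h j hj)
      · exact Finset.mem_univ _
    · intro h j hj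
      have := h j
      rw [if_pos hj] at this
      exact Finset.mem_singleton.1 this
  rw [h, Fintype.card_piFinset]
  have h2 : ∀ j : J, (if j ∈ T then ({u j} : Finset (Fin 3)) else Finset.univ).card
      = if j ∈ T then 1 else 3 := by
    intro j
    split_ifs
    · exact Finset.card_singleton _
    · simp
  simp only [h2]
  rw [Finset.prod_ite, Finset.prod_const_one, one_mul, Finset.prod_const]
  congr 1
  rw [← Finset.card_univ, ← Finset.card_sdiff_of_subset (Finset.subset_univ T)]
  congr 1
  ext j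
  simp

private lemma ker_mul (T T' : Finset J) (t r : J → Fin 3) :
    ∑ s, ker T s t * ker T' s r = ker (T ∩ T') t r := by
  have e1 : ∀ s : J → Fin 3, ker T s t * ker T' s r
      = if ((∀ j ∈ T, t j = s j) ∧ ∀ j ∈ T', r j = s j)
        then ((3 : ℂ) ^ (Fintype.card J - T.card))⁻¹ * ((3 : ℂ) ^ (Fintype.card J - T'.card))⁻¹
        else 0 := by
    intro s
    unfold ker
    by_cases h1 : ∀ j ∈ T, t j = s j
    · by_cases h2 : ∀ j ∈ T', r j = s j
      · rw [if_pos h1, if_pos h2, if_pos ⟨h1, h2⟩]
      · rw [if_neg h2, mul_zero, if_neg (fun h => h2 h.2)]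
    · rw [if_neg h1, zero_mul, if_neg (fun h => h1 h.1)]
  simp only [e1]
  rw [← Finset.sum_filter, Finset.sum_const, nsmul_eq_mul]
  unfold ker
  by_cases h : ∀ j ∈ T ∩ T', r j = t j
  · rw [if_pos h]
    have e2 : Finset.univ.filter
        (fun s : J → Fin 3 => (∀ j ∈ T, t j = s j) ∧ ∀ j ∈ T', r j = s j)
        = Finset.univ.filter (fun s : J → Fin 3 => ∀ j ∈ T ∪ T',
          s j = (fun j => if j ∈ T then t j else r j) j) := by
      ext s
      simp only [Finset.mem_filter, Finset.mem_univ, true_and]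
      constructor
      · rintro ⟨h1, h2⟩ j hj
        by_cases hT : j ∈ T
        · simp only [if_pos hT]
          exact (h1 j hT).symm
        · simp only [if_neg hT]
          rcases Finset.mem_union.1 hj with h3 | h3
          · exact absurd h3 hT
          · exact (h2 j h3).symm
      · intro h1
        refine ⟨fun j hj => ?_, fun j hj => ?_⟩
        · have := h1 j (Finset.mem_union_left _ hj)
          simp only [if_pos hj] at this
          exact this.symm
        · have := h1 j (Finset.mem_union_right _ hj)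
          by_cases hT : j ∈ T
          · simp only [if_pos hT] at this
            rw [this]
            exact h j (Finset.mem_inter.2 ⟨hT, hj⟩)
          · simp only [if_neg hT] at this
            exact this.symm
    rw [e2, count]
    have c1 : T.card ≤ Fintype.card J := Finset.card_le_univ T
    have c2 : T'.card ≤ Fintype.card J := Finset.card_le_univ T'
    have c3 : (T ∪ T').card ≤ Fintype.card J := Finset.card_le_univ _
    have c4 : (T ∩ T').card ≤ Fintype.card J := Finset.card_le_univ _
    have c5 := Finset.card_union_add_card_inter T T'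
    have c6 : (Fintype.card J - (T ∪ T').card) + (Fintype.card J - (T ∩ T').card)
        = (Fintype.card J - T.card) + (Fintype.card J - T'.card) := by omega
    have c7 : (3 : ℂ) ^ (Fintype.card J - (T ∪ T').card)
        * (3 : ℂ) ^ (Fintype.card J - (T ∩ T').card)
        = (3 : ℂ) ^ (Fintype.card J - T.card) * (3 : ℂ) ^ (Fintype.card J - T'.card) := by
      rw [← pow_add, ← pow_add, c6]
    have z1 : (3 : ℂ) ^ (Fintype.card J - T.card) ≠ 0 := pow_ne_zero _ (by norm_num)
    have z2 : (3 : ℂ) ^ (Fintype.card J - T'.card) ≠ 0 := pow_ne_zero _ (by norm_num)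
    have z3 : (3 : ℂ) ^ (Fintype.card J - (T ∩ T').card) ≠ 0 := pow_ne_zero _ (by norm_num)
    push_cast
    rw [← mul_inv, ← div_eq_mul_inv, div_eq_iff (mul_ne_zero z1 z2), inv_mul_eq_div,
      eq_div_iff z3, c7]
  · rw [if_neg h]
    have e2 : Finset.univ.filter
        (fun s : J → Fin 3 => (∀ j ∈ T, t j = s j) ∧ ∀ j ∈ T', r j = s j) = ∅ := by
      rw [Finset.filter_eq_empty_iff]
      rintro s - ⟨h1, h2⟩
      apply h
      intro j hj
      rw [Finset.mem_inter] at hj
      rw [h1 j hj.1, h2 j hj.2]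
    rw [e2]
    simp

/-- the inner product -/
private noncomputable def ip (x y : (J → Fin 3) → ℂ) : ℂ := ∑ s, conj (x s) * y s

private lemma ip_av (T T' : Finset J) (x y : (J → Fin 3) → ℂ) :
    ip (av T x) (av T' y) = ip x (av (T ∩ T') y) := by
  unfold ip
  have e1 : ∀ s, conj (av T x s) * av T' y s
      = ∑ t, ∑ r, (conj (x t) * y r) * (ker T s t * ker T' s r) := by
    intro s
    rw [av_eq, av_eq, map_sum, Finset.sum_mul_sum]
    refine Finset.sum_congr rfl fun t _ => Finset.sum_congr rfl fun r _ => ?_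
    rw [map_mul, ker_conj]
    ring
  simp only [e1]
  rw [Finset.sum_comm]
  refine Finset.sum_congr rfl fun t _ => ?_
  rw [Finset.sum_comm, av_eq, Finset.mul_sum]
  refine Finset.sum_congr rfl fun r _ => ?_
  rw [← Finset.mul_sum, ker_mul]
  ring

private lemma ip_sub_left (x y z : (J → Fin 3) → ℂ) :
    ip (fun s => x s - y s) z = ip x z - ip y z := by
  unfold ip
  rw [← Finset.sum_sub_distrib]
  exact Finset.sum_congr rfl fun s _ => by rw [map_sub]; ring

private lemma ip_sub_right (x y z : (J → Fin 3) → ℂ) :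
    ip x (fun s => y s - z s) = ip x y - ip x z := by
  unfold ip
  rw [← Finset.sum_sub_distrib]
  exact Finset.sum_congr rfl fun s _ => by ring

private lemma inner_toLp (x y : (J → Fin 3) → ℂ) :
    inner ℂ (WithLp.toLp 2 x : EuclideanSpace ℂ (J → Fin 3)) (WithLp.toLp 2 y) = ip x y := by
  rw [PiLp.inner_apply]
  unfold ip
  refine Finset.sum_congr rfl fun s _ => ?_
  simp only [RCLike.inner_apply]
  ring

end

/-- Averages over disjoint sets of coordinates: Bessel's inequality. -/
theorem hAVG : StAVG := by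
  intro J _ _ v m S hS
  set x : EuclideanSpace ℂ (J → Fin 3) := WithLp.toLp 2 v with hx
  set d : Fin m → EuclideanSpace ℂ (J → Fin 3) :=
    fun a => WithLp.toLp 2 (fun s => av (S a) v s - av ∅ v s) with hd
  have h1 : ∀ a b, a ≠ b → inner ℂ (d a) (d b) = 0 := by
    intro a b hab
    rw [hd]
    simp only
    rw [inner_toLp, ip_sub_left, ip_sub_right, ip_sub_right]
    have hdis : S a ∩ S b = ∅ := Finset.disjoint_iff_inter_eq_empty.1 (hS a b hab)
    have e1 := ip_av (S a) (S b) v v
    have e2 := ip_av (S a) ∅ v v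
    have e3 := ip_av ∅ (S b) v v
    have e4 := ip_av ∅ (∅ : Finset J) v v
    rw [hdis] at e1
    rw [Finset.inter_empty] at e2 e4
    rw [Finset.empty_inter] at e3
    rw [e1, e2, e3, e4]
    ring
  have h2 : ∀ a, inner ℂ (d a) (d a) = inner ℂ x (d a) := by
    intro a
    rw [hd, hx]
    simp only
    rw [inner_toLp, inner_toLp, ip_sub_left, ip_sub_right, ip_sub_right, ip_sub_right]
    have e1 := ip_av (S a) (S a) v v
    have e2 := ip_av (S a) ∅ v v
    have e3 := ip_av ∅ (S a) v v
    have e4 := ip_av ∅ (∅ : Finset J) v v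
    rw [Finset.inter_self] at e1
    rw [Finset.inter_empty] at e2 e4
    rw [Finset.empty_inter] at e3
    rw [e1, e2, e3, e4]
    ring
  have h3 : ∀ a, ‖d a‖ ^ 2 = (inner ℂ x (d a)).re := by
    intro a
    rw [← h2 a, inner_self_eq_norm_sq_to_K]
    norm_cast
  have hE : (inner ℂ x (∑ a, d a)).re = ∑ a, ‖d a‖ ^ 2 := by
    rw [inner_sum, Complex.re_sum]
    exact Finset.sum_congr rfl fun a _ => (h3 a).symm
  have hW : ‖∑ a, d a‖ ^ 2 = ∑ a, ‖d a‖ ^ 2 := by
    have e1 : ((‖∑ a, d a‖ ^ 2 : ℝ) : ℂ) = ∑ a, ((‖d a‖ ^ 2 : ℝ) : ℂ) := by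
      have := inner_self_eq_norm_sq_to_K (𝕜 := ℂ) (∑ a, d a)
      push_cast
      rw [show ((‖∑ a, d a‖ : ℂ)) ^ 2 = inner ℂ (∑ a, d a) (∑ a, d a) from this.symm, sum_inner]
      refine Finset.sum_congr rfl fun a _ => ?_
      rw [inner_sum, Finset.sum_eq_single a]
      · exact inner_self_eq_norm_sq_to_K (𝕜 := ℂ) (d a)
      · intro b _ hb
        exact h1 a b (Ne.symm hb)
      · intro h
        exact absurd (Finset.mem_univ a) h
    exact_mod_cast e1
  have hN := norm_sub_sq (𝕜 := ℂ) x (∑ a, d a)
  have h0 : 0 ≤ ‖x - ∑ a, d a‖ ^ 2 := sq_nonneg _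
  have hE' : RCLike.re (inner ℂ x (∑ a, d a)) = ∑ a, ‖d a‖ ^ 2 := hE
  rw [hN, hW, hE'] at h0
  have h5 : ∑ a, ‖d a‖ ^ 2 ≤ ‖x‖ ^ 2 := by linarith
  rw [EuclideanSpace.norm_sq_eq] at h5
  have h6 : ∀ a, ‖d a‖ ^ 2 = ∑ s, ‖av (S a) v s - av ∅ v s‖ ^ 2 := by
    intro a
    rw [EuclideanSpace.norm_sq_eq]
  simp only [h6] at h5
  exact h5

end Pool.Agent.Helper19.RU
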